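import Pool.Agent.Helper52.NF.St

/-! Project NF, module XA: joins and packings relative to a set of contracted nodes. -/

set_option autoImplicit false

namespace Pool.Agent.Helper13.NF

open Pool.Agent.Helper52.NF Finset

section

variable {ε N : Type} [DecidableEq ε] [DecidableEq N]

theorem xa_pt_push [Fintype N] (ρ : N → N) (a v : N) :
    ∑ u ∈ Finset.univ.filter (fun u => ρ u = v), pt a u = pt (ρ a) v := by
  unfold pt
  by_cases h : v = ρ a
  · rw [if_pos h]
    rw [Finset.sum_eq_single a]
    · simp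
    · intro b _ hb
      simp [hb]
    · intro ha
      exact absurd (Finset.mem_filter.mpr (⟨Finset.mem_univ a, h.symm⟩ :
        a ∈ Finset.univ ∧ ρ a = v)) ha
  · rw [if_neg h]
    refine Finset.sum_eq_zero (fun u hu => ?_)
    rw [Finset.mem_filter] at hu
    rw [if_neg]
    rintro rfl
    exact h hu.2.symm

omit [DecidableEq ε] in
theorem xa_bd_push [Fintype N] (α β : ε → N) (ρ : N → N) (A : Finset ε) (v : N) :
    bd (fun e => ρ (α e)) (fun e => ρ (β e)) A v =
      ∑ u ∈ Finset.univ.filter (fun u => ρ u = v), bd α β A u := by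
  unfold bd
  rw [Finset.sum_comm]
  refine Finset.sum_congr rfl (fun e _ => ?_)
  rw [Finset.sum_add_distrib, xa_pt_push, xa_pt_push]

omit [DecidableEq ε] in
theorem xa_bd_loops (α β : ε → N) (ρ : N → N) (A : Finset ε)
    (h : ∀ e ∈ A, ρ (α e) = ρ (β e)) (v : N) :
    bd (fun e => ρ (α e)) (fun e => ρ (β e)) A v = 0 := by
  unfold bd
  refine Finset.sum_eq_zero (fun e he => ?_)
  simp only [h e he]
  exact zz _

theorem xa_sum_fiber [Fintype N] (ρ : N → N) (S : Finset N) (T : N → ZMod 2) :
    ∑ u ∈ Finset.univ.filter (fun u => ρ u ∈ S), T u =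
      ∑ v ∈ S, ∑ u ∈ Finset.univ.filter (fun u => ρ u = v), T u := by
  rw [← Finset.sum_fiberwise_of_maps_to (s := Finset.univ.filter (fun u => ρ u ∈ S)) (t := S)
    (g := ρ) (fun u hu => (Finset.mem_filter.mp hu).2)]
  refine Finset.sum_congr rfl (fun v hv => ?_)
  refine Finset.sum_congr ?_ (fun _ _ => rfl)
  ext u
  simp only [Finset.mem_filter, Finset.mem_univ, true_and]
  constructor
  · exact fun h => h.2
  · exact fun h => ⟨by rw [h]; exact hv, h⟩

end

/-- Module XA. -/
theorem hXA (hXR : StXR) (hMJ : StMJ) (hIND : StIND) (hXL : StXL) (hHB : StHB) : StXA := by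
  intro ε N _ _ _ α β E NA NB X T hdis hX hE hT hJ₀
  obtain ⟨J₀, hJ₀E, hJ₀⟩ := hJ₀
  obtain ⟨ρ, h1, h2, h3⟩ := hXR ε N α β E NA NB X hdis hX hE
  refine ⟨ρ, h1, ?_⟩
  have hbd := xa_bd_push α β ρ
  -- the pushed forward boundary
  have hT1 : ∀ v, bd (fun e => ρ (α e)) (fun e => ρ (β e)) (J₀.filter (fun e => β e ∉ X)) v =
      ∑ u ∈ Finset.univ.filter (fun u => ρ u = v), T u := by
    intro v
    have hsplit : J₀ = J₀.filter (fun e => β e ∉ X) ∪ J₀.filter (fun e => β e ∈ X) := by
      ext e
      simp only [Finset.mem_union, Finset.mem_filter]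
      tauto
    have hdj : Disjoint (J₀.filter (fun e => β e ∉ X)) (J₀.filter (fun e => β e ∈ X)) := by
      rw [Finset.disjoint_left]
      intro e
      simp only [Finset.mem_filter]
      tauto
    have hu := bd_union (fun e => ρ (α e)) (fun e => ρ (β e)) hdj v
    rw [← hsplit, hbd, xa_bd_loops α β ρ (J₀.filter (fun e => β e ∈ X)), add_zero] at hu
    · rw [← hu]
      exact Finset.sum_congr rfl (fun u _ => hJ₀ u)
    · intro e he
      rw [Finset.mem_filter] at he
      exact h1 e (hJ₀E he.1) he.2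
  obtain ⟨J₁, hcons, hJ₁⟩ := hMJ ε N (fun e => ρ (α e)) (fun e => ρ (β e))
    (E.filter (fun e => β e ∉ X)) (J₀.filter (fun e => β e ∉ X))
    (Finset.filter_subset_filter _ hJ₀E)
  have hJ₁E : J₁ ⊆ E.filter (fun e => β e ∉ X) := hcons.1
  have hbJ : ∀ v, bd (fun e => ρ (α e)) (fun e => ρ (β e)) J₁ v =
      ∑ u ∈ Finset.univ.filter (fun u => ρ u = v), T u := fun v => by rw [hJ₁, hT1]
  by_cases hemp : J₁ = ∅
  · obtain ⟨P, hPE, hPX, hP⟩ := hXL ε N α β E X ρ T h3 (by
      intro c
      rw [← hbJ c, hemp, bd_empty])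
    refine ⟨P, hPE, hP, 0, fun i => i.elim0, ⟨fun i => i.elim0, fun i => i.elim0,
      fun i => i.elim0, fun i => i.elim0⟩, Or.inr ?_⟩
    intro v hv
    rw [Finset.mem_image] at hv
    obtain ⟨e, he, rfl⟩ := hv
    exact hPX e he
  · have hzero : ∀ v ∈ NB \ X, bd (fun e => ρ (α e)) (fun e => ρ (β e)) J₁ v = 0 := by
      intro v hv
      rw [Finset.mem_sdiff] at hv
      rw [hbJ]
      refine Finset.sum_eq_zero (fun u hu => ?_)
      rw [Finset.mem_filter] at hu
      have huv : u = v := (h2 v hv.1 hv.2).2 u hu.2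
      rw [huv]
      exact hT v (fun hvA => (Finset.disjoint_left.mp hdis hvA) hv.1)
    have hsnd : ∀ e ∈ E.filter (fun e => β e ∉ X), ρ (β e) = β e ∧ β e ∈ NB \ X := by
      intro e he
      rw [Finset.mem_filter] at he
      exact ⟨(h2 (β e) (hE e he.1).2 he.2).1, Finset.mem_sdiff.mpr ⟨(hE e he.1).2, he.2⟩⟩
    have hindh : Indh (fun e => ρ (α e)) (fun e => ρ (β e)) (E.filter (fun e => β e ∉ X)) J₁
        (NA.image ρ) (NB \ X) (NB \ X) := by
      refine ⟨?_, Finset.Subset.refl _, ?_, hcons, hzero⟩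
      · rw [Finset.disjoint_left]
        intro w hw hw2
        rw [Finset.mem_image] at hw
        obtain ⟨a, ha, hwa⟩ := hw
        rw [Finset.mem_sdiff] at hw2
        have := (h2 w hw2.1 hw2.2).2 a hwa
        rw [this] at ha
        exact (Finset.disjoint_left.mp hdis ha) hw2.1
      · intro e he
        refine ⟨?_, ?_⟩
        · exact Finset.mem_image_of_mem ρ (hE e (Finset.mem_filter.mp he).1).1
        · show ρ (β e) ∈ NB \ X
          rw [(hsnd e he).1]
          exact (hsnd e he).2
    obtain ⟨q, S₁, ⟨hp1, hp2, hp3, hp4⟩, hcard⟩ := hIND ε N (fun e => ρ (α e))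
      (fun e => ρ (β e)) (E.filter (fun e => β e ∉ X)) J₁ (NA.image ρ) (NB \ X) (NB \ X) hindh
      (Finset.nonempty_iff_ne_empty.mpr hemp)
    obtain ⟨P, hPE, hPX, hP⟩ := hXL ε N α β E X ρ (fun x => T x + bd α β J₁ x) h3 (by
      intro c
      rw [Finset.sum_add_distrib, ← hbd, hbJ]
      exact zz _)
    have hdj : Disjoint J₁ P := by
      rw [Finset.disjoint_left]
      intro e he he2
      exact (Finset.mem_filter.mp (hJ₁E he)).2 (hPX e he2)
    refine ⟨J₁ ∪ P, ?_, ?_, q, fun i => Finset.univ.filter (fun u => ρ u ∈ S₁ i),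
      ⟨?_, ?_, ?_, ?_⟩, Or.inl ?_⟩
    · exact Finset.union_subset (hJ₁E.trans (Finset.filter_subset _ _)) hPE
    · intro x
      rw [bd_union α β hdj, hP]
      have := zz (bd α β J₁ x)
      linear_combination this
    · intro i
      rw [xa_sum_fiber, ← hp1 i]
      exact Finset.sum_congr rfl (fun v _ => (hbJ v).symm)
    · intro i e he hb
      rw [Finset.mem_filter] at hb ⊢
      refine ⟨Finset.mem_univ _, ?_⟩
      by_cases hbX : β e ∈ X
      · rw [h1 e he hbX]
        exact hb.2
      · exact hp2 i e (Finset.mem_filter.mpr ⟨he, hbX⟩) hb.2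
    · intro i e he _ _
      exact (hE e he).2
    · intro i j hij e he e' he' ha hb ha' hb'
      simp only [Finset.mem_filter, Finset.mem_univ, true_and] at ha hb ha' hb'
      have hbX : β e ∉ X := fun h => hb (by rw [← h1 e he h]; exact ha)
      have hbX' : β e' ∉ X := fun h => hb' (by rw [← h1 e' he' h]; exact ha')
      intro hbb
      exact hp4 i j hij e (Finset.mem_filter.mpr ⟨he, hbX⟩) e'
        (Finset.mem_filter.mpr ⟨he', hbX'⟩) ha hb ha' hb' (congrArg ρ hbb)
    · -- the count
      have hbip : Bip (fun e => ρ (α e)) (fun e => ρ (β e)) J₁ := by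
        intro e he e' he' heq
        have h5 := hsnd e' (hJ₁E he')
        have h6 : ρ (α e) = β e' := by
          have : ρ (α e) = ρ (β e') := heq
          rw [this, h5.1]
        have h7 := Finset.mem_sdiff.mp h5.2
        have h8 := (h2 (β e') h7.1 h7.2).2 (α e) h6
        have h9 := (hE e (Finset.mem_filter.mp (hJ₁E he)).1).1
        rw [h8] at h9
        exact (Finset.disjoint_left.mp hdis h9) h7.1
      have hhb := hHB ε N (fun e => ρ (α e)) (fun e => ρ (β e)) J₁ hbip (by
        intro e he
        refine hzero _ ?_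
        show ρ (β e) ∈ NB \ X
        rw [(hsnd e (hJ₁E he)).1]
        exact (hsnd e (hJ₁E he)).2)
      have himg : J₁.image (fun e => ρ (β e)) = J₁.image β := by
        refine Finset.image_congr ?_
        intro e he
        exact (hsnd e (hJ₁E he)).1
      rw [himg] at hhb
      have hsub : (J₁ ∪ P).image β ⊆ J₁.image β ∪ X := by
        rw [Finset.image_union]
        refine Finset.union_subset_union (Finset.Subset.refl _) ?_
        intro v hv
        rw [Finset.mem_image] at hv
        obtain ⟨e, he, rfl⟩ := hv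
        exact hPX e he
      have hc1 : ((J₁ ∪ P).image β).card ≤ (J₁.image β).card + X.card :=
        (Finset.card_le_card hsub).trans (Finset.card_union_le _ _)
      have hsub2 : (NA.image ρ).filter
          (fun v => bd (fun e => ρ (α e)) (fun e => ρ (β e)) J₁ v = 1) ⊆
          (Finset.univ.filter (fun u => T u = 1)).image ρ := by
        intro v hv
        rw [Finset.mem_filter] at hv
        have h5 := hv.2
        rw [hbJ] at h5
        have h6 : ∑ u ∈ Finset.univ.filter (fun u => ρ u = v), T u ≠ 0 := by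
          rw [h5]; exact one_ne_zero
        obtain ⟨u, hu, hTu⟩ := Finset.exists_ne_zero_of_sum_ne_zero h6
        rw [Finset.mem_filter] at hu
        rw [Finset.mem_image]
        exact ⟨u, Finset.mem_filter.mpr ⟨Finset.mem_univ _, zne hTu⟩, hu.2⟩
      have hc2 := Finset.card_le_card hsub2
      rw [Finset.sdiff_self, Finset.card_empty] at hcard
      omega

end Pool.Agent.Helper13.NF
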